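import Mathlib
import Pool.Agent.Helper639.RO.All
import Pool.Agent.W429.CircExt

set_option autoImplicit false

namespace Pool.Agent.Results.MP_bcf00e_al.CircularlyOrderable

/-- circularly orderable: there is a total strict cyclic order invariant under multiplication on
the right -/
def CircOrd (G : Type) [Group G] : Prop :=
  ∃ C : G → G → G → Prop,
    (∀ a b c, C a b c → C b c a) ∧
    (∀ a b c, C a b c → ¬ C c b a) ∧
    (∀ a b c d, C a b c → C a c d → C a b d) ∧
    (∀ a b c, a ≠ b → b ≠ c → a ≠ c → C a b c ∨ C c b a) ∧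
    (∀ a b c g, C a b c → C (a * g) (b * g) (c * g))

/-- `g` is a left `n`-Engel element: `[x, g, …, g] = 1` (`n` copies of `g`) for all `x`, where
`[a, b] = a⁻¹ b⁻¹ a b` -/
def LeftEngel {G : Type} [Group G] (n : ℕ) (g : G) : Prop :=
  ∀ x : G, (fun y : G => y⁻¹ * g⁻¹ * y * g)^[n] x = 1

/-- a circularly orderable group is a central quotient of a right-orderable group -/
theorem exists_ro {G : Type} [Group G] (h : CircOrd G) :
    ∃ (E : Type) (_ : Group E) (π : E →* G), Function.Surjective π ∧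
      (∀ z ∈ π.ker, ∀ x : E, x * z = z * x) ∧ Pool.Agent.Helper639.RO.RO E := by
  obtain ⟨C, h1, h2, h3, h4, h5⟩ := h
  obtain ⟨E, iE, π, hπ, hz, r, htot, hanti, htr, hmul⟩ := Pool.Agent.W429.CircExt.exists_ext
    (C := C) ⟨h1, h2, h3, h4, h5⟩
  refine ⟨E, iE, π, hπ, hz, {x | r 1 x}, ?_, ?_, ?_⟩
  · intro x hx y hy
    have e1 := hmul 1 x y hx
    rw [one_mul] at e1
    exact htr _ _ _ hy e1
  · intro x
    rcases htot 1 x with e1 | e1
    · exact Or.inl e1
    · right
      have e2 := hmul x 1 x⁻¹ e1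
      rwa [mul_inv_cancel, one_mul] at e2
  · intro x hx hx'
    have e1 := hmul 1 x⁻¹ x hx'
    rw [one_mul, inv_mul_cancel] at e1
    exact hanti _ _ e1 hx

theorem map_iter {E G : Type} [Group E] [Group G] (π : E →* G) (x y : E) (n : ℕ) :
    π ((fun z : E => z⁻¹ * y⁻¹ * z * y)^[n] x) =
      (fun z : G => z⁻¹ * (π y)⁻¹ * z * π y)^[n] (π x) := by
  induction n with
  | zero => rfl
  | succ n ih =>
    rw [Function.iterate_succ_apply', Function.iterate_succ_apply', ← ih]
    simp

theorem lift_engel {E G : Type} [Group E] [Group G] (π : E →* G)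
    (hz : ∀ z ∈ π.ker, ∀ x : E, x * z = z * x) (e : E) (n : ℕ) (h : LeftEngel n (π e)) :
    LeftEngel (n + 1) e := by
  intro x
  have h7 : (fun z : E => z⁻¹ * e⁻¹ * z * e)^[n] x ∈ π.ker := by
    rw [MonoidHom.mem_ker, map_iter, h]
  rw [Function.iterate_succ_apply']
  have h8 := hz _ h7 e
  generalize (fun z : E => z⁻¹ * e⁻¹ * z * e)^[n] x = w at h8
  show w⁻¹ * e⁻¹ * w * e = 1
  rw [mul_assoc, ← h8]
  group

theorem image_engel {E G : Type} [Group E] [Group G] (π : E →* G) (hπ : Function.Surjective π)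
    (e : E) (n : ℕ) (h : LeftEngel n e) : LeftEngel n (π e) := by
  intro x
  obtain ⟨x, rfl⟩ := hπ x
  rw [← map_iter, h, map_one]

/-- In a circularly orderable group the boundedly Engel elements form a subgroup. Moreover, for
all `n` and `d` there is a bound `c` such that in every circularly orderable group any `d` left
`n`-Engel elements generate a subgroup whose `c`-th lower central term is trivial (a nilpotent
subgroup of class at most `c`). -/
theorem result :
    (∀ (G : Type) [Group G], CircOrd G →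
      ∃ H : Subgroup G, ∀ g : G, g ∈ H ↔ ∃ n : ℕ, LeftEngel n g) ∧
    (∀ n d : ℕ, ∃ c : ℕ, ∀ (G : Type) [Group G], CircOrd G →
      ∀ a : Fin d → G, (∀ i : Fin d, LeftEngel n (a i)) →
      (Subgroup.closure (Set.range a)).lowerCentralSeries c = ⊥) := by
  constructor
  · intro G _ hC
    obtain ⟨E, _, π, hπ, hz, hro⟩ := exists_ro hC
    obtain ⟨H, hH⟩ := Pool.Agent.Helper639.RO.main_ro E hro
    refine ⟨H.map π, fun g => ⟨?_, ?_⟩⟩
    · rintro ⟨e, he, rfl⟩
      obtain ⟨n, hn⟩ := (hH e).1 he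
      exact ⟨n, image_engel π hπ e n hn⟩
    · rintro ⟨n, hn⟩
      obtain ⟨e, rfl⟩ := hπ g
      exact ⟨e, (hH e).2 ⟨n + 1, lift_engel π hz e n hn⟩, rfl⟩
  · intro n d
    obtain ⟨c, hc⟩ := Pool.Agent.Helper639.RO.class_bound_sub Pool.Agent.Helper639.RO.stepCone
      (n + 1) d (by omega)
    refine ⟨c, ?_⟩
    intro G _ hC a ha
    obtain ⟨E, _, π, hπ, hz, hro⟩ := exists_ro hC
    choose b hb using fun i => hπ (a i)
    have h1 := hc E b hro (fun i x => lift_engel π hz (b i) n (by rw [hb]; exact ha i) x)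
    have h2 : Subgroup.closure (Set.range a) = (Subgroup.closure (Set.range b)).map π := by
      rw [MonoidHom.map_closure]
      congr 1
      ext g
      constructor
      · rintro ⟨i, rfl⟩
        exact ⟨b i, ⟨i, rfl⟩, hb i⟩
      · rintro ⟨_, ⟨i, rfl⟩, rfl⟩
        exact ⟨i, (hb i).symm⟩
    rw [h2, ← Subgroup.map_lowerCentralSeries, h1, Subgroup.map_bot]

end Pool.Agent.Results.MP_bcf00e_al.CircularlyOrderable
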